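import Pool.Agent.Helper120.Sylvester

set_option autoImplicit false
set_option linter.unusedSectionVars false
set_option linter.unusedVariables false

/-!
Sylvester's four point problem for arbitrary measures which do not charge lines: the second
variation argument of `Pool.Agent.Helper120.Sylvester` for local minimisers.
-/

namespace Pool.Agent.Y379.Sylv

open MeasureTheory ProbabilityTheory Pool.Agent.Helper120.Sylvester

/-- lines are null sets -/
def LN (μ : Measure (ℝ × ℝ)) : Prop :=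
  ∀ v : ℝ × ℝ, v ≠ 0 → ∀ r : ℝ, μ {z | cr v z = r} = 0

/-- `μ` is a local minimiser: no small bounded change of the density lowers the probability of
convex position -/
def Hm (μ : Measure (ℝ × ℝ)) : Prop :=
  ∃ ε : ℝ, 0 < ε ∧ ∀ g : ℝ × ℝ → ℝ, Measurable g → (∀ x, |g x - 1| ≤ ε) → ∫ x, g x ∂μ = 1 →
    phi μ ≤ phi (μ.withDensity fun x => ENNReal.ofReal (g x))

theorem LN_of_ac (μ : Measure (ℝ × ℝ)) (h : μ ≪ volume) : LN μ :=
  fun v hv r => h (line_null v hv r)

section ac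
variable (μ : Measure (ℝ × ℝ)) [IsProbabilityMeasure μ] (hac : LN μ)
include hac

lemma ae_cr_ne (a v : ℝ × ℝ) (hv : v ≠ 0) : ∀ᵐ z ∂μ, cr v (z - a) ≠ 0 := by
  have h := hac v hv (cr v a)
  rw [ae_iff]
  convert h using 2
  ext z
  simp only [not_not]
  change cr v (z - a) = 0 ↔ cr v z = cr v a
  unfold cr
  simp
  constructor <;> intro h <;> linarith

lemma ae_ori_ne (a b : ℝ × ℝ) (hab : a ≠ b) : ∀ᵐ z ∂μ, ori a b z ≠ 0 := by
  filter_upwards [ae_cr_ne μ hac a (b - a) (sub_ne_zero.2 (Ne.symm hab))] with z hz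
  rwa [ori_eq_cr]

lemma ae_ne (a : ℝ × ℝ) : ∀ᵐ z ∂μ, z ≠ a := by
  filter_upwards [ae_cr_ne μ hac a (1, 0) (by simp)] with z hz h
  apply hz
  rw [h, sub_self]
  unfold cr
  simp

end ac

section ac2
variable (μ : Measure (ℝ × ℝ)) [IsProbabilityMeasure μ] (hac : LN μ)
include hac

lemma ae_prod_ne : ∀ᵐ p ∂(μ.prod μ), p.1 ≠ p.2 := by
  have hm : MeasurableSet {p : (ℝ × ℝ) × (ℝ × ℝ) | p.1 ≠ p.2} :=
    (measurableSet_eq_fun measurable_fst measurable_snd).compl
  refine (Measure.ae_prod_iff_ae_ae hm).2 ?_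
  refine Filter.Eventually.of_forall fun a => ?_
  filter_upwards [ae_ne μ hac a] with z hz
  exact Ne.symm hz

lemma ae_F4_ne2 (a b : ℝ × ℝ) (hab : a ≠ b) :
    ∀ᵐ q ∂(μ.prod μ), F4 a b q.1 q.2 ≠ 0 := by
  have hm : MeasurableSet {q : (ℝ × ℝ) × (ℝ × ℝ) | F4 a b q.1 q.2 ≠ 0} := by
    refine (measurableSet_eq_fun ?_ measurable_const).compl
    unfold F4 ori; fun_prop
  refine (Measure.ae_prod_iff_ae_ae hm).2 ?_
  filter_upwards [ae_ori_ne μ hac a b hab, ae_ne μ hac a, ae_ne μ hac b] with c hc hc1 hc2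
  filter_upwards [ae_ori_ne μ hac a b hab, ae_ori_ne μ hac a c (Ne.symm hc1),
    ae_ori_ne μ hac b c (Ne.symm hc2)] with d hd1 hd2 hd3
  exact mul_ne_zero (mul_ne_zero (mul_ne_zero hc hd1) hd2) hd3

lemma ae_F4_ne : ∀ᵐ x ∂(Measure.pi fun _ : Fin 4 => μ), F4 (x 0) (x 1) (x 2) (x 3) ≠ 0 := by
  have hms : MeasurableSet {x : Fin 4 → ℝ × ℝ | F4 (x 0) (x 1) (x 2) (x 3) ≠ 0} :=
    (measurableSet_eq_fun measurable_F4 measurable_const).compl
  have hm : MeasurableSet {p : ((ℝ × ℝ) × (ℝ × ℝ)) × ((ℝ × ℝ) × (ℝ × ℝ)) |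
      F4 p.1.1 p.1.2 p.2.1 p.2.2 ≠ 0} := by
    refine (measurableSet_eq_fun ?_ measurable_const).compl
    unfold F4 ori; fun_prop
  rw [← map_pi4 μ]
  refine (ae_map_iff measurable_tuple4.aemeasurable hms).2 ?_
  refine (Measure.ae_prod_iff_ae_ae hm).2 ?_
  filter_upwards [ae_prod_ne μ hac] with p hp
  exact ae_F4_ne2 μ hac p.1 p.2 hp

end ac2
lemma exists_config (μ : Measure (ℝ × ℝ)) [IsProbabilityMeasure μ] (hac : LN μ) (n : ℕ) :
    ∃ x : Fin n → ℝ × ℝ,
      (∀ j : Fin 4 → Fin n, Function.Injective j → F4 (x (j 0)) (x (j 1)) (x (j 2)) (x (j 3)) ≠ 0) ∧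
      ((Finset.univ.filter fun j : Fin 4 → Fin n =>
        0 < F4 (x (j 0)) (x (j 1)) (x (j 2)) (x (j 3))).card : ℝ) ≤ (n : ℝ) ^ 4 * phi μ := by
  classical
  set P := Measure.pi fun _ : Fin n => μ with hP
  have hmp : ∀ j : Fin 4 → Fin n, Function.Injective j →
      MeasurePreserving (fun x : Fin n → ℝ × ℝ => x ∘ j) P (Measure.pi fun _ : Fin 4 => μ) := by
    intro j hj
    exact ⟨measurable_pi_lambda _ fun i => measurable_pi_apply (j i), map_comp_pi j hj μ⟩
  have hms : ∀ j : Fin 4 → Fin n, MeasurableSet {x : Fin n → ℝ × ℝ |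
      0 < F4 (x (j 0)) (x (j 1)) (x (j 2)) (x (j 3))} := by
    intro j
    refine measurableSet_lt measurable_const ?_
    unfold F4 ori; fun_prop
  have hae : ∀ᵐ x ∂P, ∀ j : Fin 4 → Fin n, Function.Injective j →
      F4 (x (j 0)) (x (j 1)) (x (j 2)) (x (j 3)) ≠ 0 := by
    rw [ae_all_iff]
    intro j
    by_cases hj : Function.Injective j
    · have h1 := (hmp j hj).quasiMeasurePreserving.ae (ae_F4_ne μ hac)
      filter_upwards [h1] with x hx _
      exact hx
    · exact Filter.Eventually.of_forall fun x h => absurd h hj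
  have hprob : ∀ j : Fin 4 → Fin n, P.real {x | 0 < F4 (x (j 0)) (x (j 1)) (x (j 2)) (x (j 3))}
      ≤ phi μ := by
    intro j
    by_cases hj : Function.Injective j
    · have h1 := (hmp j hj).measure_preimage measurableSet_pos.nullMeasurableSet
      have : P {x | 0 < F4 (x (j 0)) (x (j 1)) (x (j 2)) (x (j 3))} =
        (Measure.pi fun _ : Fin 4 => μ) {x | 0 < F4 (x 0) (x 1) (x 2) (x 3)} := h1
      unfold phi Measure.real
      rw [this]
    · have : {x : Fin n → ℝ × ℝ | 0 < F4 (x (j 0)) (x (j 1)) (x (j 2)) (x (j 3))} = ∅ := by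
        ext x
        simp only [Set.mem_empty_iff_false, iff_false]
        intro hx
        have hx' : 0 < F4 (x (j 0)) (x (j 1)) (x (j 2)) (x (j 3)) := hx
        unfold Function.Injective at hj
        push Not at hj
        obtain ⟨a, b, hab, hne⟩ := hj
        have := F4_eq_zero_of_eq (x ∘ j) a b hne (by simp [hab])
        simp only [Function.comp] at this
        linarith
      rw [this]
      simp only [measureReal_empty]
      exact measureReal_nonneg
  set f : (Fin n → ℝ × ℝ) → ℝ := fun x => ∑ j : Fin 4 → Fin n,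
    ({x : Fin n → ℝ × ℝ | 0 < F4 (x (j 0)) (x (j 1)) (x (j 2)) (x (j 3))}).indicator
      (fun _ => (1 : ℝ)) x with hf
  have hint : Integrable f P := by
    refine integrable_finsetSum _ fun j _ => ?_
    exact (integrable_const (1:ℝ)).indicator (hms j)
  have hval : ∫ x, f x ∂P ≤ (n : ℝ) ^ 4 * phi μ := by
    rw [hf, integral_finsetSum _ fun j _ => (integrable_const (1:ℝ)).indicator (hms j)]
    calc ∑ j : Fin 4 → Fin n, ∫ x, ({x : Fin n → ℝ × ℝ | 0 < F4 (x (j 0)) (x (j 1)) (x (j 2))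
            (x (j 3))}).indicator (fun _ => (1 : ℝ)) x ∂P
        = ∑ j : Fin 4 → Fin n, P.real {x | 0 < F4 (x (j 0)) (x (j 1)) (x (j 2)) (x (j 3))} := by
          refine Finset.sum_congr rfl fun j _ => ?_
          rw [integral_indicator (hms j)]
          simp
      _ ≤ ∑ j : Fin 4 → Fin n, phi μ := Finset.sum_le_sum fun j _ => hprob j
      _ = (n : ℝ) ^ 4 * phi μ := by
          simp
  have hnull : P {x | ¬ ∀ j : Fin 4 → Fin n, Function.Injective j →
      F4 (x (j 0)) (x (j 1)) (x (j 2)) (x (j 3)) ≠ 0} = 0 := by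
    rw [← ae_iff]; exact hae
  obtain ⟨x, hxN, hx⟩ := exists_notMem_null_le_integral hint hnull
  refine ⟨x, ?_, ?_⟩
  · by_contra hcon
    exact hxN hcon
  · refine le_trans ?_ (le_trans hx hval)
    rw [hf]
    rw [Finset.card_filter]
    push_cast
    refine Finset.sum_le_sum fun j _ => ?_
    by_cases h : 0 < F4 (x (j 0)) (x (j 1)) (x (j 2)) (x (j 3))
    · rw [if_pos h, Set.indicator_of_mem (show x ∈ {x : Fin n → ℝ × ℝ |
        0 < F4 (x (j 0)) (x (j 1)) (x (j 2)) (x (j 3))} from h)]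
    · rw [if_neg h]
      exact Set.indicator_nonneg (fun _ _ => zero_le_one) x
/-- sampling lemma -/
lemma sampling (μ : Measure (ℝ × ℝ)) [IsProbabilityMeasure μ] (hac : LN μ) (ε : ℝ)
    (hε : 0 < ε) : ∃ D : Set (ℝ × ℝ), Admissible D ∧ phi (cond volume D) ≤ phi μ + ε := by
  classical
  obtain ⟨n, hn4, hn⟩ : ∃ n : ℕ, 4 ≤ n ∧ 12 / (n : ℝ) < ε := by
    obtain ⟨m, hm⟩ := exists_nat_gt (12 / ε)
    refine ⟨max m 4, le_max_right _ _, ?_⟩
    have h1 : (0:ℝ) < (max m 4 : ℕ) := by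
      have : 4 ≤ max m 4 := le_max_right _ _
      exact_mod_cast (by omega : 0 < max m 4)
    rw [div_lt_iff₀ h1]
    rw [div_lt_iff₀ hε] at hm
    have h2 : (m : ℝ) ≤ (max m 4 : ℕ) := by exact_mod_cast le_max_left m 4
    nlinarith
  obtain ⟨x, hx, hcount⟩ := exists_config μ hac n
  obtain ⟨D, hD, hphi⟩ := disc_bound n hn4 x hx
  refine ⟨D, hD, le_trans hphi ?_⟩
  have hnpos : (0:ℝ) < n := by exact_mod_cast (by omega : 0 < n)
  -- the set of maps with F4 ≥ 0 is contained in (F4 > 0) ∪ (non injective)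
  have hsub : (Finset.univ.filter fun j : Fin 4 → Fin n =>
        ¬ (F4 (x (j 0)) (x (j 1)) (x (j 2)) (x (j 3)) < 0)) ⊆
      (Finset.univ.filter fun j : Fin 4 → Fin n =>
        0 < F4 (x (j 0)) (x (j 1)) (x (j 2)) (x (j 3))) ∪
      (Finset.univ.filter fun j : Fin 4 → Fin n => ¬ Function.Injective j) := by
    intro j hj
    rw [Finset.mem_filter] at hj
    rw [Finset.mem_union, Finset.mem_filter, Finset.mem_filter]
    by_cases hinj : Function.Injective j
    · left
      exact ⟨Finset.mem_univ _, lt_of_le_of_ne (not_lt.1 hj.2) (Ne.symm (hx j hinj))⟩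
    · right; exact ⟨Finset.mem_univ _, hinj⟩
  have hcard1 := le_trans (Finset.card_le_card hsub) (Finset.card_union_le _ _)
  have hninj : ((Finset.univ.filter fun j : Fin 4 → Fin n => ¬ Function.Injective j).card : ℝ) ≤
      12 * (n : ℝ) ^ 3 := by
    have h1 : (Finset.univ.filter fun j : Fin 4 → Fin n => Function.Injective j).card =
        n.descFactorial 4 := by
      have h2 : (Finset.univ.filter fun j : Fin 4 → Fin n => Function.Injective j).card =
          Fintype.card {j : Fin 4 → Fin n // Function.Injective j} := by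
        rw [Fintype.card_subtype]
      rw [h2, Fintype.card_congr (Equiv.subtypeInjectiveEquivEmbedding (Fin 4) (Fin n)),
        Fintype.card_embedding_eq]
      simp
    have h3 := Finset.card_filter_add_card_filter_not
      (s := (Finset.univ : Finset (Fin 4 → Fin n))) (fun j => Function.Injective j)
    rw [h1] at h3
    have h4 : (Finset.univ : Finset (Fin 4 → Fin n)).card = n ^ 4 := by simp
    rw [h4] at h3
    have h5 := Nat.pow_sub_le_descFactorial n 4
    have h6 : ((n + 1 - 4 : ℕ) : ℝ) = (n : ℝ) - 3 := by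
      rw [Nat.cast_sub (by omega)]; push_cast; ring
    have h7 : ((n : ℝ) - 3) ^ 4 ≤ (n.descFactorial 4 : ℝ) := by
      rw [← h6]; exact_mod_cast h5
    have h8 : (n.descFactorial 4 : ℝ) +
      ((Finset.univ.filter fun j : Fin 4 → Fin n => ¬ Function.Injective j).card : ℝ) =
        (n : ℝ) ^ 4 := by exact_mod_cast h3
    have hn4' : (4:ℝ) ≤ n := by exact_mod_cast hn4
    have h9 : (n : ℝ) ^ 4 - 12 * (n : ℝ) ^ 3 ≤ ((n : ℝ) - 3) ^ 4 := by nlinarith [sq_nonneg ((n:ℝ)), sq_nonneg ((n:ℝ) - 3)]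
    linarith
  have hcard2 : ((Finset.univ.filter fun j : Fin 4 → Fin n =>
        ¬ (F4 (x (j 0)) (x (j 1)) (x (j 2)) (x (j 3)) < 0)).card : ℝ) ≤
      (n : ℝ) ^ 4 * phi μ + 12 * (n : ℝ) ^ 3 := by
    have : ((Finset.univ.filter fun j : Fin 4 → Fin n =>
        ¬ (F4 (x (j 0)) (x (j 1)) (x (j 2)) (x (j 3)) < 0)).card : ℝ) ≤
        ((Finset.univ.filter fun j : Fin 4 → Fin n =>
        0 < F4 (x (j 0)) (x (j 1)) (x (j 2)) (x (j 3))).card : ℝ) +
      ((Finset.univ.filter fun j : Fin 4 → Fin n => ¬ Function.Injective j).card : ℝ) := by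
      exact_mod_cast hcard1
    linarith
  rw [div_le_iff₀ (by positivity)]
  have h10 : 12 < ε * n := by rwa [div_lt_iff₀ hnpos] at hn
  have h11 : 12 * (n : ℝ) ^ 3 ≤ ε * (n : ℝ) ^ 4 := by
    have : (0:ℝ) < (n:ℝ) ^ 3 := by positivity
    nlinarith
  nlinarith

section var
variable (μ : Measure (ℝ × ℝ)) [IsProbabilityMeasure μ]

lemma e2_nonneg (hmin : Hm μ)
    (φ : ℝ × ℝ → ℝ) (hφ : Measurable φ) (hb : ∀ x, |φ x| ≤ 1)
    (hint : ∫ x, φ x ∂μ = 0) :
    0 ≤ ∫ x in {x : Fin 4 → ℝ × ℝ | 0 < F4 (x 0) (x 1) (x 2) (x 3)},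
        e2 φ x ∂(Measure.pi fun _ : Fin 4 => μ) := by
  set T := {x : Fin 4 → ℝ × ℝ | 0 < F4 (x 0) (x 1) (x 2) (x 3)} with hT
  set Q := Measure.pi fun _ : Fin 4 => μ with hQ
  obtain ⟨ε₀, hε₀, hH⟩ := hmin
  have hlb : ∀ t : ℝ, |t| ≤ 1 → |t| ≤ ε₀ → phi μ ≤ ∫ x in T, ∏ i, (1 + t * φ (x i)) ∂Q := by
    intro t ht hte
    obtain ⟨h1, h2⟩ := phi_withDensity μ φ hφ hb hint t ht
    rw [← h2]
    apply hH (fun x => 1 + t * φ x) (by fun_prop)
    · intro x
      rw [add_sub_cancel_left, abs_mul]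
      calc |t| * |φ x| ≤ |t| * 1 := mul_le_mul_of_nonneg_left (hb x) (abs_nonneg _)
        _ ≤ ε₀ := by rw [mul_one]; exact hte
    · have hφi : Integrable φ μ := integrable_of_bdd μ φ hφ 1 hb
      rw [integral_add (integrable_const _) (hφi.const_mul t), integral_const_mul, hint]
      simp
  have hm4 : ∀ i : Fin 4, Measurable (fun x : Fin 4 → ℝ × ℝ => φ (x i)) :=
    fun i => hφ.comp (measurable_pi_apply i)
  have hme2 : Measurable (e2 φ) := by
    unfold e2
    have := hm4 0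
    have := hm4 1
    have := hm4 2
    have := hm4 3
    fun_prop
  have hbp : ∀ a b : ℝ × ℝ, |φ a * φ b| ≤ 1 := by
    intro a b; rw [abs_mul]; exact mul_le_one₀ (hb a) (abs_nonneg _) (hb b)
  have hbe2 : ∀ x, |e2 φ x| ≤ 6 := by
    intro x
    unfold e2
    have h1 := abs_le.1 (hbp (x 0) (x 1))
    have h2 := abs_le.1 (hbp (x 0) (x 2))
    have h3 := abs_le.1 (hbp (x 0) (x 3))
    have h4 := abs_le.1 (hbp (x 1) (x 2))
    have h5 := abs_le.1 (hbp (x 1) (x 3))
    have h6 := abs_le.1 (hbp (x 2) (x 3))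
    rw [abs_le]; constructor <;> linarith
  have hie2 : Integrable (e2 φ) (Q.restrict T) := integrable_of_bdd _ _ hme2 6 hbe2
  have hme4 : Measurable (fun x : Fin 4 → ℝ × ℝ => φ (x 0) * φ (x 1) * φ (x 2) * φ (x 3)) := by
    have := hm4 0
    have := hm4 1
    have := hm4 2
    have := hm4 3
    fun_prop
  have hbe4 : ∀ x : Fin 4 → ℝ × ℝ, |φ (x 0) * φ (x 1) * φ (x 2) * φ (x 3)| ≤ 1 := by
    intro x
    rw [mul_assoc, abs_mul]
    exact mul_le_one₀ (hbp _ _) (abs_nonneg _) (hbp _ _)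
  have hie4 : Integrable (fun x : Fin 4 → ℝ × ℝ => φ (x 0) * φ (x 1) * φ (x 2) * φ (x 3))
    (Q.restrict T) := integrable_of_bdd _ _ hme4 1 hbe4
  have hprodint : ∀ t : ℝ, |t| ≤ 1 → Integrable (fun x : Fin 4 → ℝ × ℝ => ∏ i, (1 + t * φ (x i)))
      (Q.restrict T) := by
    intro t ht
    refine integrable_of_bdd _ _ ?_ 16 ?_
    · exact Finset.measurable_fun_prod _ fun i _ => by have := hm4 i; fun_prop
    · intro x
      rw [Finset.abs_prod]
      have h16 : (16:ℝ) = ∏ i : Fin 4, (2:ℝ) := by simp; norm_num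
      rw [h16]
      refine Finset.prod_le_prod (fun i _ => abs_nonneg _) fun i _ => ?_
      have h1 : |t * φ (x i)| ≤ 1 := by
        rw [abs_mul]; exact mul_le_one₀ ht (abs_nonneg _) (hb _)
      have := abs_le.1 h1
      rw [abs_le]; constructor <;> linarith
  have hphi : phi μ = ∫ x in T, (1:ℝ) ∂Q := by
    unfold phi; simp [hT, hQ]
  have hkey : ∀ t : ℝ, 0 < t → t ≤ 1 → t ≤ ε₀ → -(t ^ 2) ≤ ∫ x in T, e2 φ x ∂Q := by
    intro t ht0 ht1 hte
    have hb1 : |t| ≤ ε₀ := by rw [abs_of_pos ht0]; exact hte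
    have hb2 : |-t| ≤ ε₀ := by rw [abs_neg]; exact hb1
    have ha : |t| ≤ 1 := by rw [abs_of_pos ht0]; exact ht1
    have ha' : |-t| ≤ 1 := by rw [abs_neg]; exact ha
    have h1 := hlb t ha hb1
    have h2 := hlb (-t) ha' hb2
    have h3 : (∫ x in T, ∏ i, (1 + t * φ (x i)) ∂Q) + ∫ x in T, ∏ i, (1 + (-t) * φ (x i)) ∂Q
        = 2 * (∫ x in T, (1:ℝ) ∂Q) + 2 * t ^ 2 * (∫ x in T, e2 φ x ∂Q) +
          2 * t ^ 4 * (∫ x in T, φ (x 0) * φ (x 1) * φ (x 2) * φ (x 3) ∂Q) := by
      have hI : Integrable (fun x : Fin 4 → ℝ × ℝ => 2 * (1:ℝ) + 2 * t ^ 2 * e2 φ x)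
          (Q.restrict T) := ((integrable_const (1:ℝ)).const_mul 2).add (hie2.const_mul _)
      rw [← integral_add (hprodint t ha) (hprodint (-t) ha'), ← integral_const_mul,
        ← integral_const_mul, ← integral_const_mul,
        ← integral_add ((integrable_const _).const_mul _) (hie2.const_mul _),
        ← integral_add hI (hie4.const_mul _)]
      refine integral_congr_ae (Filter.Eventually.of_forall fun x => ?_)
      simp only [Fin.prod_univ_four, e2]
      ring
    have h4 : ∫ x in T, φ (x 0) * φ (x 1) * φ (x 2) * φ (x 3) ∂Q ≤ 1 := by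
      have h5 : ∫ x in T, φ (x 0) * φ (x 1) * φ (x 2) * φ (x 3) ∂Q ≤ ∫ x in T, (1:ℝ) ∂Q :=
        integral_mono hie4 (integrable_const _) fun x => (abs_le.1 (hbe4 x)).2
      refine le_trans h5 ?_
      rw [← hphi]
      exact measureReal_le_one
    rw [← hphi] at h3
    have ht2 : 0 < t ^ 2 := by positivity
    have h6 : 0 ≤ 2 * t ^ 2 * (∫ x in T, e2 φ x ∂Q) + 2 * t ^ 4 *
      (∫ x in T, φ (x 0) * φ (x 1) * φ (x 2) * φ (x 3) ∂Q) := by linarith
    have h7 : 0 ≤ (2 * t ^ 2) * ((∫ x in T, e2 φ x ∂Q) + t ^ 2 *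
      (∫ x in T, φ (x 0) * φ (x 1) * φ (x 2) * φ (x 3) ∂Q)) := by nlinarith
    have h8 : 0 ≤ (∫ x in T, e2 φ x ∂Q) + t ^ 2 *
      (∫ x in T, φ (x 0) * φ (x 1) * φ (x 2) * φ (x 3) ∂Q) :=
      nonneg_of_mul_nonneg_right h7 (by positivity)
    nlinarith
  by_contra hcon
  push Not at hcon
  set c := ∫ x in T, e2 φ x ∂Q with hc
  have hp : 0 < min (min 1 ε₀) (-c / 2) := lt_min (lt_min one_pos hε₀) (by linarith)
  have hm1 : min (min 1 ε₀) (-c / 2) ≤ 1 := (min_le_left _ _).trans (min_le_left _ _)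
  have h9 := hkey (min (min 1 ε₀) (-c / 2)) hp hm1 ((min_le_left _ _).trans (min_le_right _ _))
  have h10 : min (min 1 ε₀) (-c / 2) ^ 2 ≤ 1 * (-c/2) := by
    rw [pow_two]
    exact mul_le_mul hm1 (min_le_right _ _) hp.le zero_le_one
  linarith
/-- the second variation inequality -/
lemma second_variation (hmin : Hm μ)
    (φ : ℝ × ℝ → ℝ) (hφ : Measurable φ) (hb : ∀ x, |φ x| ≤ 1)
    (hint : ∫ x, φ x ∂μ = 0) :
    0 ≤ ∫ p, φ p.1 * φ p.2 * k2 μ p.1 p.2 ∂(μ.prod μ) := by
  have h1 := e2_nonneg μ hmin φ hφ hb hint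
  rw [e2_integral μ φ hφ hb, pair_integral μ φ hφ hb] at h1
  linarith

/-- the second variation inequality, arbitrary bounded test functions -/
lemma second_variation' (hmin : Hm μ)
    (φ : ℝ × ℝ → ℝ) (hφ : Measurable φ) (C : ℝ) (hC : 0 < C) (hb : ∀ x, |φ x| ≤ C)
    (hint : ∫ x, φ x ∂μ = 0) :
    0 ≤ ∫ p, φ p.1 * φ p.2 * k2 μ p.1 p.2 ∂(μ.prod μ) := by
  have h1 := second_variation μ hmin (fun x => C⁻¹ * φ x) (by fun_prop) (fun x => by
    rw [abs_mul, abs_inv, abs_of_pos hC, inv_mul_le_iff₀ hC, mul_one]; exact hb x) (by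
    rw [integral_const_mul, hint, mul_zero])
  have h2 : ∫ p, (C⁻¹ * φ p.1) * (C⁻¹ * φ p.2) * k2 μ p.1 p.2 ∂(μ.prod μ) =
      (C⁻¹) ^ 2 * ∫ p, φ p.1 * φ p.2 * k2 μ p.1 p.2 ∂(μ.prod μ) := by
    rw [← integral_const_mul]
    refine integral_congr_ae (Filter.Eventually.of_forall fun p => ?_)
    ring
  rw [h2] at h1
  exact nonneg_of_mul_nonneg_right h1 (by positivity)

end var

open Filter Topology

section
variable (μ : Measure (ℝ × ℝ)) [IsProbabilityMeasure μ] (hac : LN μ)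
include hac

lemma measurableSet_G_ne (a : ℝ × ℝ) (s : ℝ) (v : ℝ × ℝ) : MeasurableSet {q | G a s v q ≠ 0} := by
  refine (measurableSet_eq_fun ?_ measurable_const).compl
  unfold G cr ori; fun_prop

lemma ae_G_ne (a : ℝ × ℝ) (s : ℝ) (v : ℝ × ℝ) (hv : v ≠ 0) :
    ∀ᵐ q ∂(μ.prod μ), G a s v q ≠ 0 := by
  refine (Measure.ae_prod_iff_ae_ae (measurableSet_G_ne μ hac a s v)).2 ?_
  filter_upwards [ae_cr_ne μ hac a v hv, ae_ne μ hac a, ae_ne μ hac (a + s • v)] with z h1 h2 h3
  filter_upwards [ae_cr_ne μ hac a v hv, ae_ori_ne μ hac a z (Ne.symm h2),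
    ae_ori_ne μ hac (a + s • v) z (Ne.symm h3)] with w h4 h5 h6
  exact mul_ne_zero (mul_ne_zero (mul_ne_zero h1 h4) h5) h6

lemma continuousAt_Psi (a : ℝ × ℝ) (s : ℝ) (v : ℝ × ℝ) (hv : v ≠ 0) :
    ContinuousAt (fun p : (ℝ × ℝ) × ℝ × (ℝ × ℝ) => Psi μ p.1 p.2.1 p.2.2) (a, s, v) := by
  have hm : ∀ p : (ℝ × ℝ) × ℝ × (ℝ × ℝ), MeasurableSet {q | 0 < G p.1 p.2.1 p.2.2 q} := by
    intro p
    refine measurableSet_lt measurable_const ?_
    unfold G cr ori; fun_prop
  have e : (fun p : (ℝ × ℝ) × ℝ × (ℝ × ℝ) => Psi μ p.1 p.2.1 p.2.2) =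
      fun p => ∫ q, ({q | 0 < G p.1 p.2.1 p.2.2 q}).indicator (fun _ => (1:ℝ)) q ∂(μ.prod μ) := by
    funext p
    rw [integral_indicator (hm p)]
    simp [Psi]
  rw [e]
  refine continuousAt_of_dominated (bound := fun _ => (1:ℝ)) ?_ ?_ (integrable_const _) ?_
  · exact Eventually.of_forall fun p =>
      (measurable_const.indicator (hm p)).aestronglyMeasurable
  · refine Eventually.of_forall fun p => Eventually.of_forall fun q => ?_
    by_cases h : q ∈ {q | 0 < G p.1 p.2.1 p.2.2 q}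
    · rw [Set.indicator_of_mem h]; simp
    · rw [Set.indicator_of_notMem h]; simp
  · filter_upwards [ae_G_ne μ hac a s v hv] with q hq
    have hcont : Continuous (fun p : (ℝ × ℝ) × ℝ × (ℝ × ℝ) => G p.1 p.2.1 p.2.2 q) := by
      unfold G cr ori; fun_prop
    rcases lt_or_gt_of_ne hq with h | h
    · have h1 : ∀ᶠ p in 𝓝 (a, s, v), G p.1 p.2.1 p.2.2 q < 0 :=
        hcont.continuousAt.eventually (Iio_mem_nhds h)
      refine ContinuousAt.congr (f := fun _ => (0:ℝ)) continuousAt_const ?_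
      filter_upwards [h1] with p hp
      rw [Set.indicator_of_notMem]
      intro hq'
      exact lt_asymm hp hq'
    · have h1 : ∀ᶠ p in 𝓝 (a, s, v), 0 < G p.1 p.2.1 p.2.2 q :=
        hcont.continuousAt.eventually (Ioi_mem_nhds h)
      refine ContinuousAt.congr (f := fun _ => (1:ℝ)) continuousAt_const ?_
      filter_upwards [h1] with p hp
      rw [Set.indicator_of_mem]
      exact hp

lemma continuousAt_k2 (a b : ℝ × ℝ) (hab : a ≠ b) :
    ContinuousAt (fun p : (ℝ × ℝ) × (ℝ × ℝ) => k2 μ p.1 p.2) (a, b) := by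
  have h1 := continuousAt_Psi μ hac a 1 (b - a) (sub_ne_zero.2 (Ne.symm hab))
  have h2 : ContinuousAt (fun p : (ℝ × ℝ) × (ℝ × ℝ) => (p.1, (1:ℝ), p.2 - p.1)) (a, b) := by
    fun_prop
  have h3 := ContinuousAt.comp (f := fun p : (ℝ × ℝ) × (ℝ × ℝ) => (p.1, (1:ℝ), p.2 - p.1))
    (g := fun p : (ℝ × ℝ) × ℝ × (ℝ × ℝ) => Psi μ p.1 p.2.1 p.2.2) (x := (a, b)) h1 h2
  refine h3.congr (Eventually.of_forall fun p => ?_)
  simp only [Function.comp]
  exact (k2_eq_Psi_one μ p.1 p.2).symm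

/-- mass of the open half plane to the left -/
noncomputable def mp (μ : Measure (ℝ × ℝ)) (x u : ℝ × ℝ) : ℝ := μ.real {z | 0 < cr u (z - x)}

omit hac in
lemma measurableSet_half (x u : ℝ × ℝ) : MeasurableSet {z : ℝ × ℝ | 0 < cr u (z - x)} := by
  refine measurableSet_lt measurable_const ?_
  unfold cr; fun_prop

omit hac in
lemma measurableSet_half' (x u : ℝ × ℝ) : MeasurableSet {z : ℝ × ℝ | cr u (z - x) < 0} := by
  refine measurableSet_lt ?_ measurable_const
  unfold cr; fun_prop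

lemma half_compl (x u : ℝ × ℝ) (hu : u ≠ 0) : μ.real {z | cr u (z - x) < 0} = 1 - mp μ x u := by
  have h1 : μ.real {z | cr u (z - x) < 0} = μ.real ({z | 0 < cr u (z - x)}ᶜ) := by
    apply measureReal_congr
    filter_upwards [ae_cr_ne μ hac x u hu] with z hz
    apply propext
    constructor
    · intro h h'
      exact lt_asymm h h'
    · intro h
      have h' : ¬ (0 < cr u (z - x)) := h
      exact lt_of_le_of_ne (not_lt.1 h') hz
  rw [h1, probReal_compl_eq_one_sub (measurableSet_half x u)]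
  rfl

lemma Psi_zero (x u : ℝ × ℝ) (hu : u ≠ 0) :
    Psi μ x 0 u = mp μ x u ^ 2 + (1 - mp μ x u) ^ 2 := by
  unfold Psi
  have h1 : (μ.prod μ).real {q | 0 < G x 0 u q} =
      (μ.prod μ).real (({z | 0 < cr u (z - x)} ×ˢ {z | 0 < cr u (z - x)}) ∪
        ({z | cr u (z - x) < 0} ×ˢ {z | cr u (z - x) < 0})) := by
    apply measureReal_congr
    filter_upwards [ae_G_ne μ hac x 0 u hu] with q hq
    apply propext
    have e : G x 0 u q = (cr u (q.1 - x) * cr u (q.2 - x)) * (ori x q.1 q.2) ^ 2 := by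
      unfold G; simp; ring
    have hne : ori x q.1 q.2 ≠ 0 := by
      intro h0; rw [e, h0] at hq; simp at hq
    have hpos : 0 < (ori x q.1 q.2) ^ 2 := by positivity
    constructor
    · intro h
      have h' : 0 < G x 0 u q := h
      rw [e] at h'
      have h2 : 0 < cr u (q.1 - x) * cr u (q.2 - x) := pos_of_mul_pos_left h' hpos.le
      rcases mul_pos_iff.1 h2 with h3 | h3
      · left; exact h3
      · right; exact h3
    · intro h
      change 0 < G x 0 u q
      rw [e]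
      refine mul_pos ?_ hpos
      rcases h with h | h
      · exact mul_pos h.1 h.2
      · exact mul_pos_of_neg_of_neg h.1 h.2
  rw [h1, measureReal_union]
  · rw [measureReal_prod_prod, measureReal_prod_prod, half_compl μ hac x u hu]
    unfold mp; ring
  · rw [Set.disjoint_left]
    rintro q ⟨h1, _⟩ ⟨h2, _⟩
    have h1' : 0 < cr u (q.1 - x) := h1
    have h2' : cr u (q.1 - x) < 0 := h2
    exact lt_asymm h1' h2'
  · exact (measurableSet_half' x u).prod (measurableSet_half' x u)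

lemma continuousAt_mp (x u : ℝ × ℝ) (hu : u ≠ 0) : ContinuousAt (fun v => mp μ x v) u := by
  have e : (fun v => mp μ x v) =
      fun v => ∫ q, ({q | 0 < cr v (q - x)}).indicator (fun _ => (1:ℝ)) q ∂μ := by
    funext p
    rw [integral_indicator (measurableSet_half x p)]
    simp [mp]
  rw [e]
  refine continuousAt_of_dominated (bound := fun _ => (1:ℝ)) ?_ ?_ (integrable_const _) ?_
  · exact Eventually.of_forall fun p =>
      (measurable_const.indicator (measurableSet_half x p)).aestronglyMeasurable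
  · refine Eventually.of_forall fun p => Eventually.of_forall fun q => ?_
    by_cases h : q ∈ {q | 0 < cr p (q - x)}
    · rw [Set.indicator_of_mem h]; simp
    · rw [Set.indicator_of_notMem h]; simp
  · filter_upwards [ae_cr_ne μ hac x u hu] with q hq
    have hcont : Continuous (fun p : ℝ × ℝ => cr p (q - x)) := by
      unfold cr; fun_prop
    rcases lt_or_gt_of_ne hq with h | h
    · have h1 : ∀ᶠ p in 𝓝 u, cr p (q - x) < 0 :=
        hcont.continuousAt.eventually (Iio_mem_nhds h)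
      refine ContinuousAt.congr (f := fun _ => (0:ℝ)) continuousAt_const ?_
      filter_upwards [h1] with p hp
      rw [Set.indicator_of_notMem]
      intro hq'
      exact lt_asymm hp hq'
    · have h1 : ∀ᶠ p in 𝓝 u, 0 < cr p (q - x) :=
        hcont.continuousAt.eventually (Ioi_mem_nhds h)
      refine ContinuousAt.congr (f := fun _ => (1:ℝ)) continuousAt_const ?_
      filter_upwards [h1] with p hp
      rw [Set.indicator_of_mem]
      exact hp

/-- a halving direction exists at every point -/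
lemma exists_halving (x : ℝ × ℝ) : ∃ u : ℝ × ℝ, u ≠ 0 ∧ mp μ x u = 1 / 2 := by
  have hne : ∀ θ : ℝ, ((Real.cos θ, Real.sin θ) : ℝ × ℝ) ≠ 0 := by
    intro θ h
    have h1 : Real.cos θ = 0 := congrArg Prod.fst h
    have h2 : Real.sin θ = 0 := congrArg Prod.snd h
    have := Real.cos_sq_add_sin_sq θ
    rw [h1, h2] at this; norm_num at this
  set f : ℝ → ℝ := fun θ => mp μ x (Real.cos θ, Real.sin θ) with hf
  have hfc : Continuous f := by
    rw [continuous_iff_continuousAt]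
    intro θ
    have h1 := continuousAt_mp μ hac x (Real.cos θ, Real.sin θ) (hne θ)
    have h2 : ContinuousAt (fun θ : ℝ => ((Real.cos θ, Real.sin θ) : ℝ × ℝ)) θ := by fun_prop
    exact ContinuousAt.comp (f := fun θ : ℝ => ((Real.cos θ, Real.sin θ) : ℝ × ℝ))
      (g := fun v => mp μ x v) (x := θ) h1 h2
  have hpi : f Real.pi = 1 - f 0 := by
    have h0 : f 0 = mp μ x (1, 0) := by simp [hf]
    rw [h0, ← half_compl μ hac x (1, 0) (by simp)]
    rw [hf]
    simp only [mp, Real.cos_pi, Real.sin_pi]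
    congr 1
    ext z
    simp only [Set.mem_ofPred_eq]
    unfold cr
    simp
  have hiv := intermediate_value_Icc' (f := f) Real.pi_pos.le hfc.continuousOn
  have hiv' := intermediate_value_Icc (f := f) Real.pi_pos.le hfc.continuousOn
  rcases le_total (f 0) (1/2) with h | h
  · obtain ⟨θ, _, hθ⟩ := hiv' (show (1/2 : ℝ) ∈ Set.Icc (f 0) (f Real.pi) from ⟨h, by rw [hpi]; linarith⟩)
    exact ⟨_, hne θ, hθ⟩
  · obtain ⟨θ, _, hθ⟩ := hiv (show (1/2 : ℝ) ∈ Set.Icc (f Real.pi) (f 0) from ⟨by rw [hpi]; linarith, h⟩)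
    exact ⟨_, hne θ, hθ⟩

end

section
variable (μ : Measure (ℝ × ℝ)) [IsProbabilityMeasure μ] (hac : LN μ)
include hac

lemma points_ineq (hmin : Hm μ)
    {ι : Type} [Fintype ι] [DecidableEq ι] (e : ι → ℝ × ℝ) (he : Function.Injective e)
    (hs : ∀ i, InSupp μ (e i)) (w : ι → ℝ) (hw : ∑ i, w i = 0) :
    0 ≤ ∑ i, ∑ j, (if i = j then w i * w j else w i * w j * k2 μ (e i) (e j)) := by
  set C : ℝ := ∑ i, ∑ j, |w i * w j| with hC
  have hCnn : 0 ≤ C := Finset.sum_nonneg fun i _ => Finset.sum_nonneg fun j _ => abs_nonneg _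
  refine le_of_forall_pos_le_add fun ε hε => ?_
  set δ := ε / (C + 1) with hδ
  have hδpos : 0 < δ := by positivity
  -- choose radius
  have hev : ∀ᶠ ρ in 𝓝[>] (0:ℝ), ∀ i j, i ≠ j → ∀ p ∈ Metric.closedBall (e i) ρ,
      ∀ q ∈ Metric.closedBall (e j) ρ, |k2 μ p q - k2 μ (e i) (e j)| ≤ δ := by
    rw [eventually_all]; intro i
    rw [eventually_all]; intro j
    by_cases hij : i = j
    · exact Eventually.of_forall fun ρ h => absurd hij h
    · have hc := continuousAt_k2 μ hac (e i) (e j) (fun h => hij (he h))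
      rw [Metric.continuousAt_iff] at hc
      obtain ⟨η, hη, hc⟩ := hc δ hδpos
      have : Set.Ioo (0:ℝ) η ∈ 𝓝[>] (0:ℝ) := Ioo_mem_nhdsGT hη
      filter_upwards [this] with ρ hρ _ p hp q hq
      have h1 : dist (p, q) (e i, e j) < η := by
        rw [Prod.dist_eq]
        exact max_lt (lt_of_le_of_lt (Metric.mem_closedBall.1 hp) hρ.2)
          (lt_of_le_of_lt (Metric.mem_closedBall.1 hq) hρ.2)
      have h2 := hc h1
      rw [Real.dist_eq] at h2
      exact h2.le
  obtain ⟨ρ, hρ, hρpos⟩ := (hev.and self_mem_nhdsWithin).exists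
  have hρpos : 0 < ρ := hρpos
  set B : ι → Set (ℝ × ℝ) := fun i => Metric.closedBall (e i) ρ with hB
  have hBm : ∀ i, MeasurableSet (B i) := fun i => Metric.isClosed_closedBall.measurableSet
  have hBpos : ∀ i, 0 < μ.real (B i) := fun i =>
    ENNReal.toReal_pos (hs i ρ hρpos).ne' (measure_ne_top _ _)
  set φ : ℝ × ℝ → ℝ := fun x => ∑ i, (w i / μ.real (B i)) * (B i).indicator (fun _ => (1:ℝ)) x with hφ
  have hφm : Measurable φ := by
    refine Finset.measurable_fun_sum _ fun i _ => ?_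
    exact (measurable_const.indicator (hBm i)).const_mul _
  have hφb : ∀ x, |φ x| ≤ 1 + ∑ i, |w i / μ.real (B i)| := by
    intro x
    refine le_trans (Finset.abs_sum_le_sum_abs _ _) ?_
    have : ∑ i, |w i / μ.real (B i) * (B i).indicator (fun _ => (1:ℝ)) x| ≤
        ∑ i, |w i / μ.real (B i)| := by
      refine Finset.sum_le_sum fun i _ => ?_
      rw [abs_mul]
      refine mul_le_of_le_one_right (abs_nonneg _) ?_
      by_cases h : x ∈ B i
      · rw [Set.indicator_of_mem h]; simp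
      · rw [Set.indicator_of_notMem h]; simp
    linarith
  have hφint : ∫ x, φ x ∂μ = 0 := by
    rw [hφ, integral_finsetSum _ fun i _ =>
      ((integrable_const (1:ℝ)).indicator (hBm i)).const_mul _]
    rw [← hw]
    refine Finset.sum_congr rfl fun i _ => ?_
    rw [integral_const_mul, integral_indicator (hBm i)]
    simp
    have := (hBpos i).ne'
    field_simp
  have hsv := second_variation' μ hmin φ hφm (1 + ∑ i, |w i / μ.real (B i)|)
    (by have : 0 ≤ ∑ i, |w i / μ.real (B i)| := Finset.sum_nonneg fun i _ => abs_nonneg _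
        linarith) hφb hφint
  -- expand
  have hkint : ∀ s : Set ((ℝ × ℝ) × (ℝ × ℝ)), Integrable
      (fun p : (ℝ × ℝ) × (ℝ × ℝ) => k2 μ p.1 p.2) ((μ.prod μ).restrict s) := by
    intro s
    refine integrable_of_bdd _ _ (measurable_k2 μ) 1 fun p => ?_
    rw [abs_of_nonneg (k2_nonneg _ _ _)]
    exact k2_le_one _ _ _
  have hexp : ∫ p, φ p.1 * φ p.2 * k2 μ p.1 p.2 ∂(μ.prod μ) =
      ∑ i, ∑ j, (w i / μ.real (B i)) * (w j / μ.real (B j)) *
        ∫ p in (B i ×ˢ B j), k2 μ p.1 p.2 ∂(μ.prod μ) := by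
    have h1 : ∀ p : (ℝ × ℝ) × (ℝ × ℝ), φ p.1 * φ p.2 * k2 μ p.1 p.2 =
        ∑ i, ∑ j, (w i / μ.real (B i)) * (w j / μ.real (B j)) *
          (B i ×ˢ B j).indicator (fun p : (ℝ × ℝ) × (ℝ × ℝ) => k2 μ p.1 p.2) p := by
      intro p
      rw [hφ]
      simp only
      rw [Finset.sum_mul_sum, Finset.sum_mul]
      refine Finset.sum_congr rfl fun i _ => ?_
      rw [Finset.sum_mul]
      refine Finset.sum_congr rfl fun j _ => ?_
      by_cases hi : p.1 ∈ B i
      · by_cases hj : p.2 ∈ B j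
        · rw [Set.indicator_of_mem hi, Set.indicator_of_mem hj,
            Set.indicator_of_mem (show p ∈ B i ×ˢ B j from ⟨hi, hj⟩)]
          ring
        · rw [Set.indicator_of_notMem hj, Set.indicator_of_notMem
            (fun h : p ∈ B i ×ˢ B j => hj h.2)]
          ring
      · rw [Set.indicator_of_notMem hi, Set.indicator_of_notMem
            (fun h : p ∈ B i ×ˢ B j => hi h.1)]
        ring
    rw [integral_congr_ae (Eventually.of_forall h1)]
    have hin : ∀ i j, Integrable (fun p => (w i / μ.real (B i)) * (w j / μ.real (B j)) *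
          (B i ×ˢ B j).indicator (fun p : (ℝ × ℝ) × (ℝ × ℝ) => k2 μ p.1 p.2) p) (μ.prod μ) := by
      intro i j
      refine Integrable.const_mul ?_ _
      rw [integrable_indicator_iff ((hBm i).prod (hBm j))]
      exact hkint _
    rw [integral_finsetSum _ fun i _ => integrable_finsetSum _ fun j _ => hin i j]
    refine Finset.sum_congr rfl fun i _ => ?_
    rw [integral_finsetSum _ fun j _ => hin i j]
    refine Finset.sum_congr rfl fun j _ => ?_
    rw [integral_const_mul, integral_indicator ((hBm i).prod (hBm j))]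
  rw [hexp] at hsv
  -- bound each term
  have hterm : ∀ i j, (w i / μ.real (B i)) * (w j / μ.real (B j)) *
        ∫ p in (B i ×ˢ B j), k2 μ p.1 p.2 ∂(μ.prod μ) ≤
      (if i = j then w i * w j else w i * w j * k2 μ (e i) (e j)) + |w i * w j| * δ := by
    intro i j
    have hi := hBpos i
    have hj := hBpos j
    have hprod : (μ.prod μ).real (B i ×ˢ B j) = μ.real (B i) * μ.real (B j) :=
      measureReal_prod_prod _ _
    by_cases hij : i = j
    · rw [if_pos hij]
      subst hij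
      have h1 : ∫ p in (B i ×ˢ B i), k2 μ p.1 p.2 ∂(μ.prod μ) ≤ μ.real (B i) * μ.real (B i) := by
        rw [← hprod]
        have h2 : ∫ p in (B i ×ˢ B i), k2 μ p.1 p.2 ∂(μ.prod μ) ≤
            ∫ p in (B i ×ˢ B i), (1:ℝ) ∂(μ.prod μ) :=
          integral_mono (hkint _) (integrable_const _) fun p => k2_le_one _ _ _
        refine le_trans h2 ?_
        simp
      have h3 : w i / μ.real (B i) * (w i / μ.real (B i)) *
          ∫ p in (B i ×ˢ B i), k2 μ p.1 p.2 ∂(μ.prod μ) ≤ w i * w i := by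
        have h4 : w i / μ.real (B i) * (w i / μ.real (B i)) * (μ.real (B i) * μ.real (B i)) =
            w i * w i := by field_simp
        rw [← h4]
        refine mul_le_mul_of_nonneg_left h1 ?_
        exact mul_self_nonneg _
      have h5 : 0 ≤ |w i * w i| * δ := by positivity
      linarith
    · rw [if_neg hij]
      have hkb : ∀ p ∈ B i ×ˢ B j, |k2 μ p.1 p.2 - k2 μ (e i) (e j)| ≤ δ := fun p hp =>
        hρ i j hij p.1 hp.1 p.2 hp.2
      have h1 : |(∫ p in (B i ×ˢ B j), k2 μ p.1 p.2 ∂(μ.prod μ)) -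
          μ.real (B i) * μ.real (B j) * k2 μ (e i) (e j)| ≤ δ * (μ.real (B i) * μ.real (B j)) := by
        have h2 : (∫ p in (B i ×ˢ B j), k2 μ p.1 p.2 ∂(μ.prod μ)) -
          μ.real (B i) * μ.real (B j) * k2 μ (e i) (e j) =
          ∫ p in (B i ×ˢ B j), (k2 μ p.1 p.2 - k2 μ (e i) (e j)) ∂(μ.prod μ) := by
          rw [integral_sub (hkint _) (integrable_const _)]
          congr 1
          rw [← hprod]
          simp
        rw [h2]
        have h3 := norm_setIntegral_le_of_norm_le_const (μ := μ.prod μ) (s := B i ×ˢ B j)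
          (f := fun p => k2 μ p.1 p.2 - k2 μ (e i) (e j)) (C := δ) (measure_lt_top _ _)
          (fun p hp => by rw [Real.norm_eq_abs]; exact hkb p hp)
        rw [Real.norm_eq_abs, hprod] at h3
        exact h3
      set I := ∫ p in (B i ×ˢ B j), k2 μ p.1 p.2 ∂(μ.prod μ) with hI
      have h4 : w i / μ.real (B i) * (w j / μ.real (B j)) * I - w i * w j * k2 μ (e i) (e j) =
          (w i * w j) * ((I - μ.real (B i) * μ.real (B j) * k2 μ (e i) (e j)) /
            (μ.real (B i) * μ.real (B j))) := by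
        field_simp
      have h5 : |(I - μ.real (B i) * μ.real (B j) * k2 μ (e i) (e j)) /
            (μ.real (B i) * μ.real (B j))| ≤ δ := by
        rw [abs_div, abs_of_pos (mul_pos hi hj), div_le_iff₀ (mul_pos hi hj)]
        exact h1
      have h6 : w i / μ.real (B i) * (w j / μ.real (B j)) * I - w i * w j * k2 μ (e i) (e j) ≤
          |w i * w j| * δ := by
        rw [h4]
        refine le_trans (le_abs_self _) ?_
        rw [abs_mul]
        exact mul_le_mul_of_nonneg_left h5 (abs_nonneg _)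
      linarith
  have hsum : ∑ i, ∑ j, (w i / μ.real (B i)) * (w j / μ.real (B j)) *
        ∫ p in (B i ×ˢ B j), k2 μ p.1 p.2 ∂(μ.prod μ) ≤
      ∑ i, ∑ j, ((if i = j then w i * w j else w i * w j * k2 μ (e i) (e j)) + |w i * w j| * δ) :=
    Finset.sum_le_sum fun i _ => Finset.sum_le_sum fun j _ => hterm i j
  have hsplit : ∑ i, ∑ j, ((if i = j then w i * w j else w i * w j * k2 μ (e i) (e j)) +
      |w i * w j| * δ) = (∑ i, ∑ j, (if i = j then w i * w j else w i * w j * k2 μ (e i) (e j))) +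
      C * δ := by
    simp only [Finset.sum_add_distrib]
    rw [hC, Finset.sum_mul]
    congr 1
    refine Finset.sum_congr rfl fun i _ => ?_
    rw [Finset.sum_mul]
  have hCδ : C * δ ≤ ε := by
    rw [hδ, ← mul_div_assoc, div_le_iff₀ (by linarith)]
    nlinarith
  linarith

end

section
variable (μ : Measure (ℝ × ℝ)) [IsProbabilityMeasure μ] (hac : LN μ)
include hac

lemma Psi_half (x u : ℝ × ℝ) (hu : u ≠ 0) (hm : mp μ x u = 1 / 2) : Psi μ x 0 u = 1 / 2 := by
  rw [Psi_zero μ hac x u hu, hm]; norm_num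

/-- cluster near `x`, all kernel values near 1/2, all points inside `U` -/
lemma good_cluster (x : ℝ × ℝ) (hx : DirPt μ x) (U : Set (ℝ × ℝ)) (hU : U ∈ 𝓝 x) (δ : ℝ)
    (hδ : 0 < δ) (M : ℕ) :
    ∃ T : Finset (ℝ × (ℝ × ℝ)), T.card = M ∧
      (∀ t ∈ T, InSupp μ (pt x t) ∧ pt x t ∈ U) ∧
      (∀ t ∈ T, ∀ t' ∈ T, t ≠ t' → pt x t ≠ pt x t' ∧ k2 μ (pt x t) (pt x t') ≤ 1 / 2 + δ) := by
  obtain ⟨u, hu, hm⟩ := exists_halving μ hac x
  have hP := Psi_half μ hac x u hu hm
  have e1 : ∀ᶠ p in 𝓝 (x, (0:ℝ), u), Psi μ p.1 p.2.1 p.2.2 < 1 / 2 + δ := by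
    have hc := continuousAt_Psi μ hac x 0 u hu
    refine hc.eventually (Iio_mem_nhds ?_)
    change Psi μ x 0 u < 1 / 2 + δ
    rw [hP]; linarith
  have e2 : ∀ᶠ p in 𝓝 (x, (0:ℝ), u), p.2.2 ≠ 0 := by
    have hc : ContinuousAt (fun p : (ℝ × ℝ) × ℝ × (ℝ × ℝ) => p.2.2) (x, (0:ℝ), u) := by fun_prop
    exact hc.eventually (isOpen_ne.mem_nhds hu)
  have e3 : ∀ᶠ p in 𝓝 (x, (0:ℝ), u), p.1 + p.2.1 • p.2.2 ∈ U := by
    have hc : ContinuousAt (fun p : (ℝ × ℝ) × ℝ × (ℝ × ℝ) => p.1 + p.2.1 • p.2.2)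
      (x, (0:ℝ), u) := by fun_prop
    refine hc.eventually ?_
    simpa using hU
  obtain ⟨W, hWp, hWo, hxW⟩ := eventually_nhds_iff.1 (e1.and (e2.and e3))
  obtain ⟨T, hcard, h1, h2⟩ := cluster μ x u hx W hWo hxW (fun p hp => (hWp p hp).2.1) M
  refine ⟨T, hcard, fun t ht => ⟨(h1 t ht).2.2, (hWp _ (h1 t ht).2.1).2.2⟩, ?_⟩
  intro t ht t' ht' hne
  obtain ⟨h3, h4⟩ := h2 t ht t' ht' hne
  refine ⟨h3, ?_⟩
  rcases h4 with h4 | h4
  · have h5 := (hWp _ h4).1
    simp only at h5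
    rw [← k2_eq_Psi μ _ _ (h1 t' ht').1.ne', pt_add x t t' (h1 t' ht').1.ne'] at h5
    exact h5.le
  · have h5 := (hWp _ h4).1
    simp only at h5
    rw [← k2_eq_Psi μ _ _ (h1 t ht).1.ne', pt_add x t' t (h1 t ht).1.ne', k2_symm] at h5
    exact h5.le

lemma k2_le_half (hmin : Hm μ)
    (x y : ℝ × ℝ) (hx : DirPt μ x) (hy : DirPt μ y) (hxy : x ≠ y) : k2 μ x y ≤ 1 / 2 := by
  classical
  -- it is enough to have the bound with an error
  have key : ∀ δ : ℝ, 0 < δ → ∀ M : ℕ, 0 < M → k2 μ x y ≤ 1 / 2 + 2 * δ + 1 / M := by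
    intro δ hδ M hM
    have hc := continuousAt_k2 μ hac x y hxy
    have hc2 : ∀ᶠ p in 𝓝 (x, y), k2 μ x y - δ < k2 μ p.1 p.2 := by
      refine hc.eventually (Ioi_mem_nhds ?_)
      change k2 μ x y - δ < k2 μ x y
      linarith
    rw [nhds_prod_eq] at hc2
    obtain ⟨pa, hpa, pb, hpb, hab⟩ := eventually_prod_iff.1 hc2
    have hdis : ∃ Ua ∈ 𝓝 x, ∃ Ub ∈ 𝓝 y, Disjoint Ua Ub := by
      obtain ⟨Ua, Ub, h1, h2, h3, h4, h5⟩ := t2_separation hxy
      exact ⟨Ua, h1.mem_nhds h3, Ub, h2.mem_nhds h4, h5⟩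
    obtain ⟨Ua, hUa, Ub, hUb, hUab⟩ := hdis
    obtain ⟨T, hTc, hT1, hT2⟩ := good_cluster μ hac x hx (Ua ∩ {z | pa z})
      (inter_mem hUa hpa) δ hδ M
    obtain ⟨T', hTc', hT1', hT2'⟩ := good_cluster μ hac y hy (Ub ∩ {z | pb z})
      (inter_mem hUb hpb) δ hδ M
    set e : ↥T ⊕ ↥T' → ℝ × ℝ := Sum.elim (fun t => pt x t.1) (fun t => pt y t.1) with he
    set w : ↥T ⊕ ↥T' → ℝ := Sum.elim (fun _ => 1) (fun _ => -1) with hw
    have hinj : Function.Injective e := by
      intro i j hij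
      rcases i with ⟨t, ht⟩ | ⟨t, ht⟩ <;> rcases j with ⟨t', ht'⟩ | ⟨t', ht'⟩
      · simp only [he, Sum.elim_inl] at hij
        by_cases h : t = t'
        · subst h; rfl
        · exact absurd hij (hT2 t ht t' ht' h).1
      · simp only [he, Sum.elim_inl, Sum.elim_inr] at hij
        exact absurd hij (Set.disjoint_left.1 hUab (hT1 t ht).2.1 |> fun h h' =>
          h (h' ▸ (hT1' t' ht').2.1))
      · simp only [he, Sum.elim_inl, Sum.elim_inr] at hij
        exact absurd hij.symm (Set.disjoint_left.1 hUab (hT1 t' ht').2.1 |> fun h h' =>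
          h (h' ▸ (hT1' t ht).2.1))
      · simp only [he, Sum.elim_inr] at hij
        by_cases h : t = t'
        · subst h; rfl
        · exact absurd hij (hT2' t ht t' ht' h).1
    have hsupp : ∀ i, InSupp μ (e i) := by
      rintro (⟨t, ht⟩ | ⟨t, ht⟩)
      · exact (hT1 t ht).1
      · exact (hT1' t ht).1
    have hw0 : ∑ i, w i = 0 := by
      rw [Fintype.sum_sum_type]
      simp [hw, hTc, hTc']
    have hpi := points_ineq μ hac hmin e hinj hsupp w hw0
    rw [Fintype.sum_sum_type] at hpi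
    simp_rw [Fintype.sum_sum_type] at hpi
    -- bounds
    have hMR : (0:ℝ) < M := by exact_mod_cast hM
    have b1 : ∀ i j : ↥T, (if (Sum.inl i : ↥T ⊕ ↥T') = Sum.inl j then w (Sum.inl i) * w (Sum.inl j)
        else w (Sum.inl i) * w (Sum.inl j) * k2 μ (e (Sum.inl i)) (e (Sum.inl j))) ≤
        (1 / 2 + δ) + (if i = j then 1 else 0) := by
      intro i j
      by_cases h : i = j
      · subst h
        simp [hw]; linarith
      · rw [if_neg (fun h' => h (Sum.inl_injective h')), if_neg h]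
        have := (hT2 i.1 i.2 j.1 j.2 (fun h' => h (Subtype.ext h'))).2
        simp only [hw, he, Sum.elim_inl, mul_one, one_mul, add_zero]
        exact this
    have b2 : ∀ i j : ↥T', (if (Sum.inr i : ↥T ⊕ ↥T') = Sum.inr j then w (Sum.inr i) * w (Sum.inr j)
        else w (Sum.inr i) * w (Sum.inr j) * k2 μ (e (Sum.inr i)) (e (Sum.inr j))) ≤
        (1 / 2 + δ) + (if i = j then 1 else 0) := by
      intro i j
      by_cases h : i = j
      · subst h
        simp [hw]; linarith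
      · rw [if_neg (fun h' => h (Sum.inr_injective h')), if_neg h]
        have := (hT2' i.1 i.2 j.1 j.2 (fun h' => h (Subtype.ext h'))).2
        simp only [hw, he, Sum.elim_inr, mul_neg, mul_one, neg_neg, one_mul, add_zero]
        exact this
    have b3 : ∀ (i : ↥T) (j : ↥T'), (if (Sum.inl i : ↥T ⊕ ↥T') = Sum.inr j then
        w (Sum.inl i) * w (Sum.inr j)
        else w (Sum.inl i) * w (Sum.inr j) * k2 μ (e (Sum.inl i)) (e (Sum.inr j))) ≤
        -(k2 μ x y - δ) := by
      intro i j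
      rw [if_neg (by simp)]
      have := hab (hT1 i.1 i.2).2.2 (hT1' j.1 j.2).2.2
      simp only [hw, he, Sum.elim_inl, Sum.elim_inr, mul_neg, mul_one, neg_mul, one_mul]
      simp only at this
      linarith
    have b4 : ∀ (i : ↥T') (j : ↥T), (if (Sum.inr i : ↥T ⊕ ↥T') = Sum.inl j then
        w (Sum.inr i) * w (Sum.inl j)
        else w (Sum.inr i) * w (Sum.inl j) * k2 μ (e (Sum.inr i)) (e (Sum.inl j))) ≤
        -(k2 μ x y - δ) := by
      intro i j
      rw [if_neg (by simp)]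
      have := hab (hT1 j.1 j.2).2.2 (hT1' i.1 i.2).2.2
      rw [k2_symm μ (e (Sum.inr i))]
      simp only [hw, he, Sum.elim_inl, Sum.elim_inr, mul_one, neg_mul, one_mul]
      simp only at this
      linarith
    have s1 := Finset.sum_le_sum fun (i : ↥T) (_ : i ∈ Finset.univ) =>
      Finset.sum_le_sum fun (j : ↥T) (_ : j ∈ Finset.univ) => b1 i j
    have s2 := Finset.sum_le_sum fun (i : ↥T') (_ : i ∈ Finset.univ) =>
      Finset.sum_le_sum fun (j : ↥T') (_ : j ∈ Finset.univ) => b2 i j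
    have s3 := Finset.sum_le_sum fun (i : ↥T) (_ : i ∈ Finset.univ) =>
      Finset.sum_le_sum fun (j : ↥T') (_ : j ∈ Finset.univ) => b3 i j
    have s4 := Finset.sum_le_sum fun (i : ↥T') (_ : i ∈ Finset.univ) =>
      Finset.sum_le_sum fun (j : ↥T) (_ : j ∈ Finset.univ) => b4 i j
    have c1 : ∑ i : ↥T, ∑ j : ↥T, ((1 / 2 + δ) + (if i = j then (1:ℝ) else 0)) =
        M * (M * (1 / 2 + δ) + 1) := by
      have : ∀ i : ↥T, ∑ j : ↥T, ((1 / 2 + δ) + (if i = j then (1:ℝ) else 0)) =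
        M * (1 / 2 + δ) + 1 := by
        intro i
        rw [Finset.sum_add_distrib]
        simp [hTc]; ring
      rw [Finset.sum_congr rfl fun i _ => this i]
      simp [hTc]; ring
    have c2 : ∑ i : ↥T', ∑ j : ↥T', ((1 / 2 + δ) + (if i = j then (1:ℝ) else 0)) =
        M * (M * (1 / 2 + δ) + 1) := by
      have : ∀ i : ↥T', ∑ j : ↥T', ((1 / 2 + δ) + (if i = j then (1:ℝ) else 0)) =
        M * (1 / 2 + δ) + 1 := by
        intro i
        rw [Finset.sum_add_distrib]
        simp [hTc']; ring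
      rw [Finset.sum_congr rfl fun i _ => this i]
      simp [hTc']; ring
    have c3 : ∑ i : ↥T, ∑ j : ↥T', (-(k2 μ x y - δ)) = M * (M * (-(k2 μ x y - δ))) := by
      simp [hTc, hTc']; ring
    have c4 : ∑ i : ↥T', ∑ j : ↥T, (-(k2 μ x y - δ)) = M * (M * (-(k2 μ x y - δ))) := by
      simp [hTc, hTc']; ring
    rw [c1] at s1
    rw [c2] at s2
    rw [c3] at s3
    rw [c4] at s4
    simp only [Finset.sum_add_distrib] at hpi
    have htot : 0 ≤ M * (M * (1 / 2 + δ) + 1) + M * (M * (1 / 2 + δ) + 1) +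
        M * (M * (-(k2 μ x y - δ))) + M * (M * (-(k2 μ x y - δ))) := by linarith
    have h5 : (k2 μ x y) * M ≤ (1 / 2 + 2 * δ) * M + 1 := by
      have : 0 ≤ (2 * (M:ℝ)) * ((1 / 2 + 2 * δ) * M + 1 - (k2 μ x y) * M) := by nlinarith
      have := nonneg_of_mul_nonneg_right this (by positivity)
      linarith
    have h6 : k2 μ x y ≤ ((1 / 2 + 2 * δ) * M + 1) / M := by
      rw [le_div_iff₀ hMR]; exact h5
    have h7 : ((1 / 2 + 2 * δ) * M + 1) / (M:ℝ) = 1 / 2 + 2 * δ + 1 / M := by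
      field_simp
    linarith
  refine le_of_forall_pos_le_add fun ε hε => ?_
  obtain ⟨m, hm⟩ := exists_nat_gt (2 / ε)
  have hmpos : (0:ℝ) < m := lt_trans (by positivity) hm
  have h1 := key (ε / 4) (by positivity) m (by exact_mod_cast hmpos)
  have h2 : 1 / (m:ℝ) ≤ ε / 2 := by
    rw [div_lt_iff₀ hε] at hm
    rw [div_le_iff₀ hmpos]
    nlinarith
  linarith

end

section
variable (μ : Measure (ℝ × ℝ)) [IsProbabilityMeasure μ] (hac : LN μ)
include hac

/-- from a direction point one reaches direction points in every direction -/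
lemma DirPt_reach (hdir : ∀ᵐ x ∂μ, DirPt μ x) (x : ℝ × ℝ) (hx : DirPt μ x) (u : ℝ × ℝ) (η : ℝ)
    (hη : 0 < η) : ∃ s : ℝ, ∃ v : ℝ × ℝ, 0 < s ∧ s < η ∧ dist v u < η ∧ DirPt μ (x + s • v) := by
  obtain ⟨s, v, hs0, hsη, hvη, hsupp⟩ := hx u (η / 2) (by positivity)
  have hr : 0 < s * (η / 2) := by positivity
  obtain ⟨y, hy, hyd⟩ := exists_of_pos _ _ hdir _ (hsupp (s * (η / 2)) hr)
  refine ⟨s, (1 / s) • (y - x), hs0, by linarith, ?_, ?_⟩
  · have h1 : dist ((1 / s) • (y - x)) v ≤ η / 2 := by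
      rw [dist_eq_norm]
      have e : (1 / s) • (y - x) - v = (1 / s) • (y - (x + s • v)) := by
        rw [smul_sub, smul_sub, smul_add, smul_smul, one_div, inv_mul_cancel₀ hs0.ne', one_smul]
        abel
      rw [e, norm_smul, Real.norm_eq_abs, abs_of_pos (by positivity), one_div,
        inv_mul_le_iff₀ hs0, ← dist_eq_norm]
      exact Metric.mem_closedBall.1 hy
    have := dist_triangle ((1 / s) • (y - x)) v u
    linarith
  · have : x + s • (1 / s) • (y - x) = y := by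
      rw [smul_smul, mul_one_div_cancel hs0.ne', one_smul]; abel
    rw [this]; exact hyd

lemma all_halving (hmin : Hm μ)
    (hdir : ∀ᵐ x ∂μ, DirPt μ x) (x : ℝ × ℝ) (hx : DirPt μ x) (u : ℝ × ℝ) (hu : u ≠ 0) :
    mp μ x u = 1 / 2 := by
  have hle : Psi μ x 0 u ≤ 1 / 2 := by
    by_contra hcon
    push Not at hcon
    have hc := continuousAt_Psi μ hac x 0 u hu
    have e1 : ∀ᶠ p in 𝓝 (x, (0:ℝ), u), 1 / 2 < Psi μ p.1 p.2.1 p.2.2 :=
      hc.eventually (Ioi_mem_nhds hcon)
    have e2 : ∀ᶠ p in 𝓝 (x, (0:ℝ), u), p.2.2 ≠ 0 := by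
      have hc : ContinuousAt (fun p : (ℝ × ℝ) × ℝ × (ℝ × ℝ) => p.2.2) (x, (0:ℝ), u) := by fun_prop
      exact hc.eventually (isOpen_ne.mem_nhds hu)
    obtain ⟨η, hη, hall⟩ := Metric.eventually_nhds_iff.1 (e1.and e2)
    obtain ⟨s, v, hs0, hsη, hvη, hd⟩ := DirPt_reach μ hac hdir x hx u η hη
    have hdist : dist (x, s, v) (x, (0:ℝ), u) < η := by
      rw [Prod.dist_eq]
      refine max_lt ?_ ?_
      · simpa using hη
      · rw [Prod.dist_eq]
        refine max_lt ?_ hvη
        rw [Real.dist_eq, sub_zero, abs_of_pos hs0]; exact hsη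
    obtain ⟨h1, h2⟩ := hall hdist
    simp only at h1 h2
    rw [← k2_eq_Psi μ x s hs0.ne' v] at h1
    have hne : x ≠ x + s • v := by
      intro h
      rcases smul_eq_zero.1 (left_eq_add.1 h) with h3 | h3
      · exact hs0.ne' h3
      · exact h2 h3
    have := k2_le_half μ hac hmin x (x + s • v) hx hd hne
    linarith
  rw [Psi_zero μ hac x u hu] at hle
  nlinarith [sq_nonneg (2 * mp μ x u - 1)]

lemma no_min (hmin : Hm μ)
    (hdir : ∀ᵐ x ∂μ, DirPt μ x) : False := by
  obtain ⟨x, hx⟩ := hdir.exists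
  obtain ⟨y, hy, hyx⟩ := (hdir.and (ae_ne μ hac x)).exists
  obtain ⟨z, hz, hxyz⟩ := ((ae_InSupp μ).and (ae_ori_ne μ hac x y (Ne.symm hyx))).exists
  -- the direction
  set u : ℝ × ℝ := z - (1 / 2 : ℝ) • (x + y) with hu
  have hori : cr u (y - x) ≠ 0 := by
    intro h
    apply hxyz
    have : cr u (y - x) = - ori x y z := by
      rw [hu]; unfold cr ori; simp; ring
    rw [this] at h
    linarith
  have hu0 : u ≠ 0 := by
    intro h
    rw [h] at hori
    apply hori
    unfold cr; simp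
  have hzx : cr u (z - x) = cr u (y - x) / 2 := by
    rw [hu]; unfold cr; simp; ring
  have hzy : cr u (z - y) = - (cr u (y - x) / 2) := by
    rw [hu]; unfold cr; simp; ring
  have h1 := all_halving μ hac hmin hdir x hx u hu0
  have h2 := all_halving μ hac hmin hdir y hy u hu0
  have hadd : ∀ q : ℝ × ℝ, cr u (q - x) = cr u (q - y) + cr u (y - x) := by
    intro q; unfold cr; simp; ring
  -- general fact: two nested half planes of equal measure
  have key : ∀ a b : ℝ × ℝ, mp μ a u = 1 / 2 → mp μ b u = 1 / 2 → 0 < cr u (z - a) →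
      cr u (z - b) < 0 → (∀ q : ℝ × ℝ, 0 < cr u (q - b) → 0 < cr u (q - a)) → False := by
    intro a b ha hb hza hzb hsub
    have hopen : IsOpen {q : ℝ × ℝ | 0 < cr u (q - a) ∧ cr u (q - b) < 0} := by
      have o1 : IsOpen {q : ℝ × ℝ | 0 < cr u (q - a)} :=
        isOpen_lt continuous_const (by unfold cr; fun_prop)
      have o2 : IsOpen {q : ℝ × ℝ | cr u (q - b) < 0} :=
        isOpen_lt (by unfold cr; fun_prop) continuous_const
      exact o1.inter o2
    obtain ⟨r, hr, hball⟩ := Metric.isOpen_iff.1 hopen z ⟨hza, hzb⟩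
    have hposball := hz (r / 2) (by positivity)
    have hsubset : Metric.closedBall z (r / 2) ⊆
        {q : ℝ × ℝ | 0 < cr u (q - a)} \ {q : ℝ × ℝ | 0 < cr u (q - b)} := by
      intro q hq
      have := hball (Metric.closedBall_subset_ball (by linarith) hq)
      exact ⟨this.1, fun h => lt_asymm h this.2⟩
    have hdiff : μ.real ({q : ℝ × ℝ | 0 < cr u (q - a)} \ {q : ℝ × ℝ | 0 < cr u (q - b)}) = 0 := by
      have hsub' : {q : ℝ × ℝ | 0 < cr u (q - b)} ⊆ {q : ℝ × ℝ | 0 < cr u (q - a)} :=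
        fun q hq => hsub q hq
      rw [measureReal_sdiff hsub' (measurableSet_half b u)]
      have e1 : μ.real {q : ℝ × ℝ | 0 < cr u (q - a)} = 1 / 2 := ha
      have e2 : μ.real {q : ℝ × ℝ | 0 < cr u (q - b)} = 1 / 2 := hb
      rw [e1, e2]; simp
    have h3 : μ ({q : ℝ × ℝ | 0 < cr u (q - a)} \ {q : ℝ × ℝ | 0 < cr u (q - b)}) = 0 :=
      (measureReal_eq_zero_iff (measure_ne_top _ _)).1 hdiff
    exact hposball.ne' (measure_mono_null hsubset h3)
  rcases lt_or_gt_of_ne hori with h | h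
  · -- cr u (y - x) < 0
    refine key y x h2 h1 (by rw [hzy]; linarith) (by rw [hzx]; linarith) fun q hq => ?_
    have := hadd q
    linarith
  · refine key x y h1 h2 (by rw [hzx]; linarith) (by rw [hzy]; linarith) fun q hq => ?_
    have := hadd q
    linarith

end

end Pool.Agent.Y379.Sylv
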