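import Pool.Agent.Y379.Sylv.Gen

set_option autoImplicit false

/-!
Almost every point of an absolutely continuous measure is approached by the support from every
direction.
-/

namespace Pool.Agent.Y379.Sylv

open MeasureTheory ProbabilityTheory Pool.Agent.Helper120.Sylvester Filter Topology

lemma dir_of_ac (μ : Measure (ℝ × ℝ)) [IsProbabilityMeasure μ] (hac : μ ≪ volume) :
    ∀ᵐ x ∂μ, DirPt μ x := by
  set f := μ.rnDeriv volume with hf
  have hfm : Measurable f := Measure.measurable_rnDeriv μ volume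
  have hμ : volume.withDensity f = μ := Measure.withDensity_rnDeriv_eq μ volume hac
  set D : Set (ℝ × ℝ) := {x | f x ≠ 0} with hD
  have hzero : ∀ s : Set (ℝ × ℝ), μ s = 0 ↔ volume (D ∩ s) = 0 := by
    intro s
    have h := withDensity_apply_eq_zero (μ := (volume : Measure (ℝ × ℝ))) (f := f) (s := s) hfm
    rw [hμ] at h
    exact h
  have hacD : μ ≪ volume.restrict D := by
    have hDm : MeasurableSet D := (measurableSet_eq_fun hfm measurable_const).compl
    refine Measure.AbsolutelyContinuous.mk fun s hs h => ?_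
    rw [Measure.restrict_apply hs, Set.inter_comm] at h
    exact (hzero s).mpr h
  have hall : ∀ᵐ x ∂(volume.restrict D), ∀ K : ℕ,
      ∀ {ι : Type} {l : Filter ι} (w : ι → ℝ × ℝ) (δ : ι → ℝ) (_ : Tendsto δ l (𝓝[>] 0))
      (_ : ∀ᶠ j in l, x ∈ Metric.closedBall (w j) (K * δ j)),
      Tendsto (fun j => volume (D ∩ Metric.closedBall (w j) (δ j)) /
        volume (Metric.closedBall (w j) (δ j))) l (𝓝 1) := by
    rw [ae_all_iff]
    intro K
    filter_upwards [IsUnifLocDoublingMeasure.ae_tendsto_measure_inter_div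
      (volume : Measure (ℝ × ℝ)) D (K:ℝ)] with x hx ι l w δ h1 h2
    exact hx w δ h1 h2
  have hall2 := hacD.ae_le hall
  filter_upwards [hall2] with x hx u η hη
  obtain ⟨κ, hκ⟩ := exists_nat_gt (1 / η)
  have hκpos : (0:ℝ) < κ := lt_trans (by positivity) hκ
  obtain ⟨K, hK⟩ := exists_nat_gt (κ * ‖u‖)
  have h1 := @hx K ℝ (𝓝[>] (0:ℝ)) (fun δ : ℝ => x + (δ * κ) • u) (fun δ : ℝ => δ) tendsto_id (by
    filter_upwards [self_mem_nhdsWithin] with δ hδ
    have hδ' : 0 < δ := hδ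
    rw [Metric.mem_closedBall, dist_eq_norm]
    have : x - (x + (δ * κ) • u) = -((δ * κ) • u) := by abel
    rw [this, norm_neg, norm_smul, Real.norm_eq_abs, abs_of_pos (mul_pos hδ' hκpos)]
    nlinarith)
  have h2 : ∀ᶠ δ : ℝ in 𝓝[>] (0:ℝ), 0 < volume (D ∩ Metric.closedBall (x + (δ * κ) • u) δ) /
        volume (Metric.closedBall (x + (δ * κ) • u) δ) :=
    h1.eventually (Ioi_mem_nhds one_pos)
  have h3 : ∀ᶠ δ : ℝ in 𝓝[>] (0:ℝ), δ ∈ Set.Ioo (0:ℝ) (η / κ) := Ioo_mem_nhdsGT (by positivity)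
  obtain ⟨δ, hδ1, hδ2⟩ := (h2.and h3).exists
  have hpos : 0 < volume (D ∩ Metric.closedBall (x + (δ * κ) • u) δ) := by
    rw [pos_iff_ne_zero]
    intro h0
    rw [h0] at hδ1
    simp at hδ1
  have hμpos : 0 < μ (Metric.closedBall (x + (δ * κ) • u) δ) := by
    rw [pos_iff_ne_zero]
    intro h0
    exact hpos.ne' ((hzero _).mp h0)
  obtain ⟨y, hy, hys⟩ := exists_of_pos _ _ (ae_InSupp μ) _ hμpos
  have hs : 0 < δ * κ := mul_pos hδ2.1 hκpos
  refine ⟨δ * κ, (1 / (δ * κ)) • (y - x), hs, ?_, ?_, ?_⟩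
  · have := hδ2.2
    rw [lt_div_iff₀ hκpos] at this
    exact this
  · rw [dist_eq_norm]
    have e : (1 / (δ * κ)) • (y - x) - u = (1 / (δ * κ)) • (y - (x + (δ * κ) • u)) := by
      rw [smul_sub, smul_sub, smul_add, smul_smul, one_div, inv_mul_cancel₀ hs.ne', one_smul]
      abel
    rw [e, norm_smul, Real.norm_eq_abs, abs_of_pos (by positivity)]
    have h4 : ‖y - (x + (δ * κ) • u)‖ ≤ δ := by
      rw [← dist_eq_norm]; exact Metric.mem_closedBall.1 hy
    have h5 : 1 / (δ * κ) * ‖y - (x + (δ * κ) • u)‖ ≤ 1 / (δ * κ) * δ :=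
      mul_le_mul_of_nonneg_left h4 (by positivity)
    have h6 : 1 / (δ * κ) * δ = 1 / κ := by
      have := hδ2.1.ne'
      field_simp
    rw [h6] at h5
    refine lt_of_le_of_lt h5 ?_
    rw [div_lt_iff₀ hκpos]
    rw [div_lt_iff₀ hη] at hκ
    linarith
  · have : x + (δ * κ) • (1 / (δ * κ)) • (y - x) = y := by
      rw [smul_smul, mul_one_div_cancel hs.ne', one_smul]; abel
    rw [this]; exact hys

/-- local improvement -/
theorem improve (μ : Measure (ℝ × ℝ)) [IsProbabilityMeasure μ] (hln : LN μ)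
    (hdir : ∀ᵐ x ∂μ, DirPt μ x) (ε : ℝ) (hε : 0 < ε) :
    ∃ g : ℝ × ℝ → ℝ, Measurable g ∧ (∀ x, |g x - 1| ≤ ε) ∧ ∫ x, g x ∂μ = 1 ∧
      phi (μ.withDensity fun x => ENNReal.ofReal (g x)) < phi μ := by
  by_contra hcon
  push Not at hcon
  exact no_min μ hln ⟨ε, hε, fun g h1 h2 h3 => hcon g h1 h2 h3⟩ hdir

/-- a lower bound for uniform distributions on sets is a lower bound for all measures which do not
charge lines -/
theorem lower (c : ℝ) (hmin : ∀ D, Admissible D → c ≤ phi (cond volume D))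
    (μ : Measure (ℝ × ℝ)) [IsProbabilityMeasure μ] (hln : LN μ) : c ≤ phi μ := by
  refine le_of_forall_pos_le_add fun ε hε => ?_
  obtain ⟨D, hD, h⟩ := sampling μ hln ε hε
  exact le_trans (hmin D hD) h

end Pool.Agent.Y379.Sylv
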